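import Pool.Agent.H57.G2.Gpx
import Pool.Agent.H93.GQ.Rex
import Pool.Agent.H57.GP.Gpr

/-!
# H57 G2 FIN: the black box GP for groups of exponent `p ^ κ`, all primes, from `SMX p`

* `SMX p`: the small part `SmX` for all fields with enough roots of unity.
* `gprx`: `GPR D QBar (p ^ κ)`. `gpux`: `H35.UB.GPU D QBar κ`.
-/

set_option autoImplicit false

open scoped NumberField Pointwise Classical
open IsDedekindDomain H63.MA NumberField H36.QA H57.LI H57.LC H1.LS4 H67.SX H38.ML H57.SL H57.AN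
  H38.BB H38.BG H57.PC H77.WD H77.WE

noncomputable section

namespace H57.GP.Q.E

/-- the small part for all fields with enough roots of unity -/
def SMX (ℓ : ℕ) : Prop :=
  ∀ (κ : ℕ) (K : IntermediateField ℚ QBar) [NumberField K] (z : K), 2 ≤ κ →
    IsPrimitiveRoot z (ℓ ^ κ) → MQ ℓ (ℓ ^ κ) K → ∀ b, SmX K ℓ (ℓ ^ κ) b

/-- the black box for raw functions of order `ℓ ^ κ` -/
theorem gprx {ℓ κ : ℕ} (hsm : SMX ℓ) (hℓ : ℓ.Prime) (hκ : 2 ≤ κ) {K : IntermediateField ℚ QBar}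
    [NumberField K] {ζ z : K} (hζ : IsPrimitiveRoot ζ ℓ) (hz : IsPrimitiveRoot z (ℓ ^ κ))
    (hm : MQ ℓ (ℓ ^ κ) K) (D : RD0 K ℓ ζ) : GPR D QBar (ℓ ^ κ) := by
  have hs := hsm κ K z hκ hz hm
  obtain ⟨k, rfl⟩ : ∃ k, κ = k + 1 := ⟨κ - 1, by omega⟩
  exact gpr_of hℓ (dvd_pow_self ℓ (Nat.succ_ne_zero k)) hζ D
    (gpsx (pq_pow hℓ k) hm hz hs D.S0 D.above)

/-- the black box, in the form of H35/UB, exponent `ℓ ^ κ` -/
theorem gpux {ℓ κ : ℕ} (hsm : SMX ℓ) (hℓ : ℓ.Prime) (hκ : 2 ≤ κ) {K : IntermediateField ℚ QBar}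
    [NumberField K] {ζ z : K} (hζ : IsPrimitiveRoot ζ ℓ) (hz : IsPrimitiveRoot z (ℓ ^ κ))
    (hm : MQ ℓ (ℓ ^ κ) K) (D : RD0 K ℓ ζ) : H35.UB.GPU D QBar κ := by
  intro b C₁ A ε hε
  have hq0 : 0 < ℓ ^ κ := pow_pos hℓ.pos _
  obtain ⟨Y₀, hY₀⟩ := gprx hsm hℓ hκ hζ hz hm D ((b + 1) * (b + 1) * ℓ ^ κ) C₁ A ε hε
  refine ⟨Y₀, ?_⟩
  intro Y hY L Fr E ι I n x hn hx hfib G _ _ φ f hF
  refine hY₀ Y hY L Fr ι I n x (fun i hi => (hn i hi).2) hx hfib G φ f fun i hi => ?_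
  obtain ⟨h1, h2, h3, h4, h5⟩ := hF i hi
  have hcard : Fintype.card (φ i).range ≤ b + 1 := by
    rw [Fintype.card_subtype]
    exact h1.trans (Nat.le_succ b)
  refine ⟨h1.trans ?_, fun y => ⟨κ, Subtype.ext (h2 y.1 y.2)⟩,
    ⟨fun y => f i y, ?_, gpr_cls (φ i) (f i) h3⟩, h5.1,
    fun v hv hn' => (h5.2 v hv fun hE => hn' ((hn i hi).1 hE)).2 hn'⟩
  · calc b ≤ (b + 1) * 1 * 1 := by omega
      _ ≤ (b + 1) * (b + 1) * ℓ ^ κ := Nat.mul_le_mul (Nat.mul_le_mul le_rfl (by omega)) hq0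
  · refine raw_exp hq0 (fun y => Subtype.ext (h2 y.1 y.2)) hcard (Nat.succ_le_succ (Nat.zero_le b))
      fun y => (h4 y.1 y.2).trans ?_
    exact_mod_cast Nat.le_succ b

end H57.GP.Q.E
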