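import Pool.Agent.H57.G2.Fin
import Pool.Agent.H62.BL.Bl2

/-!
# H57 G2 GP2: the statement `GP2 p` of H51/AC2 for all primes, from `SMX p`
-/

set_option autoImplicit false

open scoped NumberField Pointwise Classical
open IsDedekindDomain H63.MA NumberField H36.QA H57.LI H57.LC H1.LS4 H67.SX H38.ML H57.SL H57.AN
  H38.BB H38.BG H57.PC H77.WD H77.WE

noncomputable section

namespace H57.GP.Q.E

theorem mone_pow {p κ M : ℕ} (hp : p.Prime) (hM : κ < M) {K : Type} [Field K] {z : K}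
    (hz : IsPrimitiveRoot z (p ^ M)) : MOne (p ^ κ) K := by
  rcases hp.eq_two_or_odd' with h | h
  · subst h
    have h1 : IsPrimitiveRoot (z ^ 2 ^ (M - 1)) 2 := by
      refine hz.pow (pow_pos two_pos _) ?_
      rw [← pow_succ]
      congr 1
      omega
    refine ⟨z ^ 2 ^ (M - 1 - κ), ?_⟩
    rw [← h1.eq_neg_one_of_two_right, ← pow_mul, ← pow_add]
    congr 2
    omega
  · exact ⟨-1, h.pow.neg_one_pow⟩

/-- `GP2 p` from the small part, all primes -/
theorem gp2_of {p : ℕ} (hp : p.Prime) (hsm : SMX p) : H51.AC2.GP2 p := by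
  intro κ
  refine ⟨κ + 3, fun K _ ζ hζ z hz D => H62.BL.gpu_mono (show κ ≤ κ + 2 by omega) ?_⟩
  have h1 : IsPrimitiveRoot (z ^ p) (p ^ (κ + 2)) := by
    refine hz.pow (pow_pos hp.pos _) ?_
    rw [← pow_succ']
  have h2 : MQ p (p ^ (κ + 2)) K :=
    ⟨H51.PF.mone_of hp (by omega) hz, mone_pow hp (by omega) hz⟩
  exact gpux hsm hp (Nat.le_add_left 2 κ) hζ h1 h2 D.toRD0

end H57.GP.Q.E
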