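import Pool.Agent.H93.GQ.Chr
import Pool.Agent.H57.GP.Orb
import Pool.Agent.H57.GP.Lst
import Pool.Agent.H57.SL.Dsb
import Pool.Agent.H57.SL.Pcs
import Pool.Agent.H57.GP.Chr
import Pool.Agent.H57.G2.Chv

/-!
# H57 G2 CHR: as H57/GP/Chr, characters of prime power order `p = ℓ ^ (k + 1)`
-/

set_option autoImplicit false

open scoped NumberField Pointwise Classical
open IsDedekindDomain H63.MA NumberField H36.QA H57.LI H57.LC H67.SX H38.ML H57.SL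

noncomputable section

namespace H57.GP.Q.E
private theorem chr_nr1 {K : IntermediateField ℚ QBar} [NumberField K] (B : Finset (Pl K)) : (1 : ℝ) ≤ nr B := by
  have h := (prK K).one_le_nn B
  have e : (prK K).nn B = nr B := by
    unfold Pr.nn nr
    exact Finset.prod_congr rfl fun l _ => by rw [prK_N]
  rw [e] at h
  exact h

theorem chr {ℓ p : ℕ} (hp : PQ ℓ p) {K : IntermediateField ℚ QBar} [NumberField K] (hp2 : MQ ℓ p K)
    {ζ : K} (hζ : IsPrimitiveRoot ζ p) (b : ℕ) : ∃ (C : ℝ) (A : ℕ) (δ : ℝ), 1 ≤ C ∧ 0 < δ ∧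
    δ ≤ 1 / 4 ∧ ∀ (G : Type) [Group G] [Fintype G] (φ : Gal(QBar/K) →* G) (H : Subgroup G)
      (ψ : G → ZMod p) (B Bd : Finset (Pl K)) (Q : DP K QBar) (g : Pl K → ℂ),
      Fintype.card G ≤ b → Ft φ → Lc H ψ → (∀ l, ¬ Above p l → l ∉ B → Ud φ H ψ l) →
      Np φ H ψ → B ⊆ Bd → (∀ l, ‖g l‖ ≤ b) →
      (∀ l, l ∉ Bd → ¬ Above p l → g l = mi φ H ψ (fr Q l)) → ∀ Y : ℝ, 1 ≤ Y →
      ‖∑ s ∈ (prK K).SF Y, ∏ l ∈ s, g l‖ ≤ C * C ^ Bd.card * nr B ^ A * Y ^ (1 - δ) := by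
  obtain ⟨n0, hn0⟩ : ∃ n0, n0 = Module.finrank ℚ K := ⟨_, rfl⟩
  obtain ⟨C1, A1, δ, hC1, hδ, hδ4, hl⟩ := lst K b (n0 * b) (b : ℝ) (Nat.cast_nonneg b)
  have hfin : {v : Pl K | Above p v}.Finite := finite_above hp.ne_zero
  obtain ⟨S, hS⟩ : ∃ S : Finset (Pl K), ∀ v, v ∈ S ↔ Above p v :=
    ⟨hfin.toFinset, fun v => by rw [Set.Finite.mem_toFinset]; rfl⟩
  choose Cd hCd hds using fun d : ℕ => dsb K d S
  obtain ⟨G0, hG0⟩ : ∃ G0, G0 = ∑ d ∈ Finset.range (b + 1), Cd d := ⟨_, rfl⟩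
  have hG0le : ∀ d ≤ b, Cd d ≤ G0 := by
    intro d hd
    rw [hG0]
    exact Finset.single_le_sum (f := Cd) (fun i _ => zero_le_one.trans (hCd i)) (Finset.mem_range.2 (by omega))
  have hG01 : 1 ≤ G0 := (hCd 0).trans (hG0le 0 (Nat.zero_le _))
  obtain ⟨P, hP⟩ : ∃ P : ℝ, P = ((p : ℝ) ^ 3) ^ n0 := ⟨_, rfl⟩
  have hP1 : 1 ≤ P := by
    rw [hP]
    refine one_le_pow₀ (one_le_pow₀ ?_)
    exact_mod_cast hp.one_lt.le
  have hQ1 : 1 ≤ G0 * P ^ b := by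
    have h1 : 1 ≤ P ^ b := one_le_pow₀ hP1
    nlinarith
  have hC0 : (0 : ℝ) ≤ C1 := zero_le_one.trans hC1
  have hCC : C1 ≤ C1 * C1 ^ S.card * (G0 * P ^ b) ^ (b * A1) := by
    have h4 : 1 ≤ C1 ^ S.card := one_le_pow₀ hC1
    have h5 : 1 ≤ (G0 * P ^ b) ^ (b * A1) := one_le_pow₀ hQ1
    calc C1 = C1 * 1 * 1 := by ring
      _ ≤ _ := by gcongr
  refine ⟨C1 * C1 ^ S.card * (G0 * P ^ b) ^ (b * A1), (2 * b) * (b * A1), δ, hC1.trans hCC, hδ, hδ4, ?_⟩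
  intro G _ _ φ H ψ B Bd Q g hG hft hLc hU hN hBd hg hgl Y hY
  obtain ⟨m, E, θ, hm0, hmG, hE, hT, hsum⟩ := orb φ hft H ψ hLc B hU hN
  have hfd : ∀ i, FiniteDimensional K (E i) := fun i => (hE i).1
  have hnf : ∀ i, NumberField (E i) := fun i => NumberField.of_module_finite K (E i)
  have hdeg : ∀ i, Module.finrank K (E i) ≤ b := fun i => (hE i).2.trans hG
  choose χ hV hNon _ using fun i => chv hp hp2 hζ (E i) (θ i) B (hT i).1
  have hmd : ∀ i, md (mB p B) (E i) ≠ ⊥ := by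
    intro i
    unfold md
    rw [Ne, Ideal.map_eq_bot_iff_of_injective (FaithfulSMul.algebraMap_injective (𝓞 K) (𝓞 (E i)))]
    exact mB_ne hp B
  have htc : ∀ i, NumberField.IsTotallyComplex (E i) ∧ Module.finrank ℚ (E i) ≤ n0 * b := by
    intro i
    refine ⟨?_, ?_⟩
    · have hζE : IsPrimitiveRoot (algebraMap K (E i) ζ) p := hζ.map_of_injective (algebraMap K (E i)).injective
      exact (hp2.up (E i)).tc hp hζE
    · rw [← Module.finrank_mul_finrank ℚ K (E i), ← hn0]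
      exact Nat.mul_le_mul_left _ (hdeg i)
  have hnr := chr_nr1 B
  have hnr0 : (0 : ℝ) ≤ nr B := zero_le_one.trans hnr
  have hfac : ∀ i, dd (E i) * Ideal.absNorm (md (mB p B) (E i)) ≤ (G0 * P ^ b) * nr B ^ (2 * b) := by
    intro i
    have h1 := hds (Module.finrank K (E i)) (E i) rfl B fun l hl hB =>
      th_IT (E i) (θ i) B (hT i).1 l (fun h' => hl ((hS l).2 h')) hB
    have h2 : (nr B : ℝ) ^ Module.finrank K (E i) ≤ nr B ^ b := pow_le_pow_right₀ hnr (hdeg i)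
    have h3 : dd (E i) ≤ G0 * nr B ^ b :=
      h1.trans (mul_le_mul (hG0le _ (hdeg i)) h2 (pow_nonneg hnr0 _) (zero_le_one.trans hG01))
    have h4 : (Ideal.absNorm (md (mB p B) (E i)) : ℝ) ≤ P ^ b * nr B ^ b := by
      rw [mB_norm, ← hn0, ← hP, ← mul_pow]
      refine pow_le_pow_right₀ ?_ (hdeg i)
      nlinarith
    calc dd (E i) * Ideal.absNorm (md (mB p B) (E i)) ≤ (G0 * nr B ^ b) * (P ^ b * nr B ^ b) :=
          mul_le_mul h3 h4 (Nat.cast_nonneg _) (mul_nonneg (zero_le_one.trans hG01) (pow_nonneg hnr0 _))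
      _ = (G0 * P ^ b) * nr B ^ (2 * b) := by
          rw [two_mul, pow_add]
          ring
  have hfac0 : ∀ i, 0 ≤ dd (E i) * Ideal.absNorm (md (mB p B) (E i)) := fun i =>
    mul_nonneg (abs_nonneg _) (Nat.cast_nonneg _)
  have hQ2 : 1 ≤ (G0 * P ^ b) * nr B ^ (2 * b) := by
    have h1 : (1 : ℝ) ≤ nr B ^ (2 * b) := one_le_pow₀ hnr
    nlinarith
  have hprod : (∏ i, (dd (E i) * Ideal.absNorm (md (mB p B) (E i)))) ≤ ((G0 * P ^ b) * nr B ^ (2 * b)) ^ b := by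
    calc (∏ i, (dd (E i) * Ideal.absNorm (md (mB p B) (E i)))) ≤
          ∏ _i : Fin m, ((G0 * P ^ b) * nr B ^ (2 * b)) :=
          Finset.prod_le_prod (fun i _ => hfac0 i) fun i _ => hfac i
      _ = ((G0 * P ^ b) * nr B ^ (2 * b)) ^ m := by
          rw [Finset.prod_const, Finset.card_univ, Fintype.card_fin]
      _ ≤ _ := pow_le_pow_right₀ hQ2 (hmG.trans hG)
  have key := hl m (Nat.one_le_iff_ne_zero.2 hm0) (hmG.trans hG) (fun i => E i) htc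
    (fun i => md (mB p B) (E i)) hmd χ (fun i => hNon i (hT i).2) g hg (Bd ∪ S)
    (fun l hl hlp => by
      rw [Finset.mem_union, not_or] at hl
      have h1 : ¬ Above p l := fun h => hl.2 ((hS l).2 h)
      rw [hsum hnf χ hV Q l h1 (fun h => hl.1 (hBd h)) hlp, hgl l hl.1 h1]) Y hY
  refine key.trans ?_
  have hYn : (0 : ℝ) ≤ Y ^ (1 - δ) := Real.rpow_nonneg (zero_le_one.trans hY) _
  refine mul_le_mul_of_nonneg_right ?_ hYn
  have hcard : C1 ^ (Bd ∪ S).card ≤ C1 ^ S.card * C1 ^ Bd.card := by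
    rw [← pow_add]
    refine pow_le_pow_right₀ hC1 ?_
    rw [add_comm]
    exact Finset.card_union_le _ _
  have hpr0 : 0 ≤ ∏ i, (dd (E i) * (Ideal.absNorm (md (mB p B) (E i)) : ℝ)) :=
    Finset.prod_nonneg fun i _ => hfac0 i
  have hA : (∏ i, (dd (E i) * (Ideal.absNorm (md (mB p B) (E i)) : ℝ))) ^ A1 ≤
      (G0 * P ^ b) ^ (b * A1) * nr B ^ ((2 * b) * (b * A1)) := by
    refine (pow_le_pow_left₀ hpr0 hprod A1).trans (le_of_eq ?_)
    rw [← pow_mul, mul_pow, ← pow_mul (nr B)]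
  have hCB : C1 ^ Bd.card ≤ (C1 * C1 ^ S.card * (G0 * P ^ b) ^ (b * A1)) ^ Bd.card := pow_le_pow_left₀ hC0 hCC _
  have hG00 : (0 : ℝ) ≤ G0 * P ^ b := zero_le_one.trans hQ1
  calc C1 * C1 ^ (Bd ∪ S).card * (∏ i, (dd (E i) * (Ideal.absNorm (md (mB p B) (E i)) : ℝ))) ^ A1 ≤
        C1 * (C1 ^ S.card * C1 ^ Bd.card) * ((G0 * P ^ b) ^ (b * A1) * nr B ^ ((2 * b) * (b * A1))) := by
        gcongr
    _ = (C1 * C1 ^ S.card * (G0 * P ^ b) ^ (b * A1)) * C1 ^ Bd.card * nr B ^ ((2 * b) * (b * A1)) := by ring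
    _ ≤ (C1 * C1 ^ S.card * (G0 * P ^ b) ^ (b * A1)) * (C1 * C1 ^ S.card * (G0 * P ^ b) ^ (b * A1)) ^ Bd.card *
        nr B ^ ((2 * b) * (b * A1)) := by
        gcongr

end H57.GP.Q.E
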