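import Pool.Agent.H93.GQ.Bgb
import Pool.Agent.H57.G2.Bga
import Pool.Agent.H57.GP.Bgb

/-!
# H57 G2 BGB: as H57/GP/Bgb, characters of prime power order `p = ℓ ^ (k + 1)`
-/

set_option autoImplicit false

open scoped NumberField Pointwise Classical ComplexConjugate
open IsDedekindDomain H63.MA NumberField H36.QA H57.LI H57.LC H67.SX H38.ML H57.SL H57.AN

noncomputable section

namespace H57.GP.Q.E
/-- the conditions of `bga` and the size of its bound -/
private theorem bgb_n1 (C : ℝ) (hC : 1 ≤ C) (C₁ A' : ℕ) (hC₁ : 1 ≤ C₁) : ∃ l₀ : ℝ, 1 ≤ l₀ ∧ ∀ l t c s : ℝ,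
    l₀ ≤ l → l ^ 3 ≤ t → t ≤ C₁ * Real.exp l → 0 ≤ c → c ≤ C₁ * l → l ^ 3 ≤ s →
    s ≤ C₁ * Real.exp l → C * (A' * l + Real.log ((c + 2) * (Real.log 2 + t))) ≤ s ∧
    C * (1 + (c + 2) * (Real.log 2 + t) / s) *
      (A' * l + Real.log ((c + 2) * (Real.log 2 + t)) + Real.log s + 1) ≤ t / 8 := by
  have hC1 : (1 : ℝ) ≤ C₁ := by exact_mod_cast hC₁
  obtain ⟨M, hM⟩ : ∃ M : ℝ, M = Real.log (2 * (C₁ + 2) * C₁) + Real.log C₁ +
    32 * C * (C₁ + 2) * (A' + 6) + 1 := ⟨_, rfl⟩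
  have hl1 : 0 ≤ Real.log (2 * (C₁ + 2) * C₁) := Real.log_nonneg (by nlinarith)
  have hl2 : 0 ≤ Real.log C₁ := Real.log_nonneg hC1
  have hA0 : (0 : ℝ) ≤ A' := Nat.cast_nonneg _
  have h32 : 0 ≤ 32 * C * (C₁ + 2) * (A' + 6) := by positivity
  refine ⟨M, by rw [hM]; linarith, ?_⟩
  intro l t c s hl ht ht2 hc hc2 hs hs2
  have hl0 : 1 ≤ l := by rw [hM] at hl; linarith
  have hlM : Real.log (2 * (C₁ + 2) * C₁) ≤ l := by rw [hM] at hl; linarith
  have hlC : Real.log C₁ ≤ l := by rw [hM] at hl; linarith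
  have hl32 : 32 * C * (C₁ + 2) * (A' + 6) ≤ l := by rw [hM] at hl; linarith
  have hl3 : 1 ≤ l ^ 3 := one_le_pow₀ hl0
  have ht1 : 1 ≤ t := hl3.trans ht
  have hs1 : 1 ≤ s := hl3.trans hs
  have hlog2 : Real.log 2 ≤ 1 := by
    have := Real.log_two_lt_d9
    linarith
  have hlog2' : 0 < Real.log 2 := Real.log_pos (by norm_num)
  obtain ⟨L, hL⟩ : ∃ L : ℝ, L = (c + 2) * (Real.log 2 + t) := ⟨_, rfl⟩
  rw [← hL]
  have hc3 : c + 2 ≤ (C₁ + 2) * l := by nlinarith
  have hLt : L ≤ (C₁ + 2) * l * (2 * t) := by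
    rw [hL]
    exact mul_le_mul hc3 (by linarith) (by linarith) (by positivity)
  have hL1 : 1 ≤ L := by
    rw [hL]
    nlinarith
  have hel : 0 < Real.exp l := Real.exp_pos _
  have hlogl : Real.log l ≤ l := (Real.log_le_sub_one_of_pos (by linarith)).trans (by linarith)
  have hlogL : Real.log L ≤ 3 * l := by
    have h1 : L ≤ (2 * (C₁ + 2) * C₁) * l * Real.exp l := by
      refine hLt.trans ?_
      calc (C₁ + 2) * l * (2 * t) = 2 * (C₁ + 2) * l * t := by ring
        _ ≤ 2 * (C₁ + 2) * l * (C₁ * Real.exp l) := mul_le_mul_of_nonneg_left ht2 (by positivity)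
        _ = _ := by ring
    have h2 := Real.log_le_log (by linarith) h1
    rw [Real.log_mul (by positivity) (by positivity), Real.log_mul (by positivity) (by positivity),
      Real.log_exp] at h2
    linarith
  have hlogs : Real.log s ≤ 2 * l := by
    have h2 := Real.log_le_log (by linarith) hs2
    rw [Real.log_mul (by positivity) (by positivity), Real.log_exp] at h2
    linarith
  have hlogL0 : 0 ≤ Real.log L := Real.log_nonneg hL1
  have hlogs0 : 0 ≤ Real.log s := Real.log_nonneg hs1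
  have hA6 : (0 : ℝ) ≤ A' + 6 := by positivity
  have hCA : C * (A' + 6) * 32 ≤ l := by
    have h1 : C * (A' + 6) * 32 * 1 ≤ C * (A' + 6) * 32 * (C₁ + 2) :=
      mul_le_mul_of_nonneg_left (by linarith) (by positivity)
    calc C * (A' + 6) * 32 = C * (A' + 6) * 32 * 1 := by ring
      _ ≤ C * (A' + 6) * 32 * (C₁ + 2) := h1
      _ = 32 * C * (C₁ + 2) * (A' + 6) := by ring
      _ ≤ l := hl32
  have hsq : l ≤ l ^ 2 := by nlinarith
  have hcu : l ^ 2 ≤ l ^ 3 := by nlinarith [sq_nonneg l]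
  constructor
  · have h1 : C * (A' * l + Real.log L) ≤ C * ((A' + 6) * l) := by
      refine mul_le_mul_of_nonneg_left ?_ (by linarith)
      nlinarith
    have h2 : C * ((A' + 6) * l) ≤ l ^ 2 := by
      have h3 : C * (A' + 6) ≤ l := by
        have h4 : 0 ≤ C * (A' + 6) := by positivity
        linarith
      calc C * ((A' + 6) * l) = (C * (A' + 6)) * l := by ring
        _ ≤ l * l := mul_le_mul_of_nonneg_right h3 (by linarith)
        _ = l ^ 2 := by ring
    linarith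
  · have h1 : A' * l + Real.log L + Real.log s + 1 ≤ (A' + 6) * l := by nlinarith
    have h1' : 0 ≤ A' * l + Real.log L + Real.log s + 1 := by positivity
    have hs0 : 0 < s := by linarith
    have h2 : L / s ≤ 2 * (C₁ + 2) * t / l ^ 2 := by
      rw [div_le_div_iff₀ hs0 (by positivity)]
      calc L * l ^ 2 ≤ ((C₁ + 2) * l * (2 * t)) * l ^ 2 :=
            mul_le_mul_of_nonneg_right hLt (by positivity)
        _ = 2 * (C₁ + 2) * t * l ^ 3 := by ring
        _ ≤ 2 * (C₁ + 2) * t * s := mul_le_mul_of_nonneg_left hs (by positivity)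
    have h3 : C * (1 + L / s) * (A' * l + Real.log L + Real.log s + 1) ≤
        C * (1 + 2 * (C₁ + 2) * t / l ^ 2) * ((A' + 6) * l) := by
      refine mul_le_mul (mul_le_mul_of_nonneg_left (by linarith) (by linarith)) h1 h1' ?_
      positivity
    refine h3.trans ?_
    have e : C * (1 + 2 * (C₁ + 2) * t / l ^ 2) * ((A' + 6) * l) =
        C * (A' + 6) * l + 2 * C * (C₁ + 2) * (A' + 6) * (t / l) := by
      field_simp
    rw [e]
    have h4 : C * (A' + 6) * l ≤ t / 16 := by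
      have h5 : C * (A' + 6) * 32 * l ≤ l * l := mul_le_mul_of_nonneg_right hCA (by linarith)
      have h6 : l * l ≤ t := by nlinarith
      nlinarith
    have h7 : 2 * C * (C₁ + 2) * (A' + 6) * (t / l) ≤ t / 16 := by
      have h8 : 0 ≤ t / l := by positivity
      have h9 : 32 * C * (C₁ + 2) * (A' + 6) * (t / l) ≤ l * (t / l) :=
        mul_le_mul_of_nonneg_right hl32 h8
      have h10 : l * (t / l) = t := by field_simp
      nlinarith
    linarith

private theorem bgb_n2 (b n C₁ A : ℕ) : ∃ l₀ : ℝ, 2 ≤ l₀ ∧ ∀ l t : ℝ, l₀ ≤ l → l ^ 3 ≤ t →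
    (2 * Real.exp l ^ (A + C₁ + 3) * C₁ * Real.exp l + 2) *
        (Real.exp (t / 8) * Real.exp l ^ C₁ * (2 * b * n)) ≤
      1 / 2 * (Real.exp t * Real.exp l ^ (-(A : ℝ))) ∧
    ((1 + 2 * b * n) / Real.exp l ^ (A + C₁ + 3)) *
        (Real.exp l ^ C₁ * (2 * n * (2 * Real.exp t))) ≤
      1 / 2 * (Real.exp t * Real.exp l ^ (-(A : ℝ))) ∧
    Real.exp l ^ (A + C₁ + 3) ≤ Real.exp (l ^ 3) ∧ 3 ≤ Real.exp l ^ (A + C₁ + 3) ∧
    3 ≤ Real.exp (l ^ 3) := by
  have hb : (0 : ℝ) ≤ b := Nat.cast_nonneg _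
  have hn : (0 : ℝ) ≤ n := Nat.cast_nonneg _
  have hC : (0 : ℝ) ≤ C₁ := Nat.cast_nonneg _
  have hA : (0 : ℝ) ≤ A := Nat.cast_nonneg _
  obtain ⟨M, hM⟩ : ∃ M : ℝ, M = 2 * (2 * A + 2 * C₁ + 4) + 2 * (8 * (C₁ + 1) * b * n) +
    8 * n * (1 + 2 * b * n) + (A + C₁ + 3) + 2 := ⟨_, rfl⟩
  have p1 : 0 ≤ 8 * (C₁ + 1) * b * (n : ℝ) := by positivity
  have p2 : 0 ≤ 8 * (n : ℝ) * (1 + 2 * b * n) := by positivity
  refine ⟨M, by rw [hM]; linarith, ?_⟩
  intro l t hl ht
  have hl2 : 2 ≤ l := by rw [hM] at hl; linarith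
  have q1 : 2 * (2 * A + 2 * C₁ + 4) + 2 * (8 * (C₁ + 1) * b * n) ≤ l := by
    rw [hM] at hl
    linarith
  have q2 : 8 * (n : ℝ) * (1 + 2 * b * n) ≤ l := by rw [hM] at hl; linarith
  have q3 : (A : ℝ) + C₁ + 3 ≤ l := by rw [hM] at hl; linarith
  have hsq : l ≤ l ^ 2 := by nlinarith
  have hcu : 2 * l ^ 2 ≤ l ^ 3 := by nlinarith [sq_nonneg l]
  have e1 : Real.exp l ^ (A + C₁ + 3) = Real.exp (((A : ℝ) + C₁ + 3) * l) := by
    rw [← Real.exp_nat_mul]
    push_cast
    rfl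
  have e2 : Real.exp l ^ C₁ = Real.exp ((C₁ : ℝ) * l) := by rw [← Real.exp_nat_mul]
  have e3 : Real.exp l ^ (-(A : ℝ)) = Real.exp (-(A : ℝ) * l) := by
    rw [← Real.exp_mul]
    congr 1
    ring
  rw [e1, e2, e3]
  refine ⟨?_, ?_, ?_, ?_, ?_⟩
  · have h1 : 2 * Real.exp (((A : ℝ) + C₁ + 3) * l) * C₁ * Real.exp l + 2 ≤
        2 * (C₁ + 1) * Real.exp (((A : ℝ) + C₁ + 4) * l) := by
      have h2 : Real.exp (((A : ℝ) + C₁ + 4) * l) = Real.exp (((A : ℝ) + C₁ + 3) * l) * Real.exp l := by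
        rw [← Real.exp_add]
        congr 1
        ring
      have h3 : 1 ≤ Real.exp (((A : ℝ) + C₁ + 4) * l) := Real.one_le_exp (by positivity)
      calc _ = 2 * C₁ * Real.exp (((A : ℝ) + C₁ + 4) * l) + 2 := by rw [h2]; ring
        _ ≤ 2 * C₁ * Real.exp (((A : ℝ) + C₁ + 4) * l) + 2 * Real.exp (((A : ℝ) + C₁ + 4) * l) := by
          linarith
        _ = _ := by ring
    have h4 : (2 * (C₁ + 1) * Real.exp (((A : ℝ) + C₁ + 4) * l)) *
        (Real.exp (t / 8) * Real.exp ((C₁ : ℝ) * l) * (2 * b * n)) =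
        1 / 2 * (8 * (C₁ + 1) * b * n) * Real.exp (((A : ℝ) + 2 * C₁ + 4) * l + t / 8) := by
      have h5 : Real.exp (((A : ℝ) + 2 * C₁ + 4) * l + t / 8) =
          Real.exp (((A : ℝ) + C₁ + 4) * l) * (Real.exp (t / 8) * Real.exp ((C₁ : ℝ) * l)) := by
        rw [← Real.exp_add, ← Real.exp_add]
        congr 1
        ring
      rw [h5]
      ring
    refine (mul_le_mul_of_nonneg_right h1 (by positivity)).trans ?_
    rw [h4]
    have h6 : 8 * (C₁ + 1) * b * n ≤ Real.exp (7 * t / 8 - (2 * A + 2 * C₁ + 4) * l) := by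
      refine le_trans ?_ (Real.add_one_le_exp _)
      have h7 : (2 * (2 * A + 2 * C₁ + 4) + 2 * (8 * (C₁ + 1) * b * n)) * l ≤ l * l :=
        mul_le_mul_of_nonneg_right q1 (by linarith)
      have h8 : 8 * (C₁ + 1) * b * n * 1 ≤ 8 * (C₁ + 1) * b * n * l :=
        mul_le_mul_of_nonneg_left (by linarith) p1
      nlinarith
    have h9 : Real.exp t * Real.exp (-(A : ℝ) * l) =
        Real.exp (7 * t / 8 - (2 * A + 2 * C₁ + 4) * l) * Real.exp (((A : ℝ) + 2 * C₁ + 4) * l + t / 8) := by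
      rw [← Real.exp_add, ← Real.exp_add]
      congr 1
      ring
    rw [h9, mul_assoc (1 / 2 : ℝ)]
    refine mul_le_mul_of_nonneg_left ?_ (by norm_num)
    exact mul_le_mul_of_nonneg_right h6 (Real.exp_pos _).le
  · have h1 : Real.exp t * Real.exp (-(A : ℝ) * l) =
        Real.exp (3 * l) * (Real.exp (((A : ℝ) + C₁ + 3) * l))⁻¹ * (Real.exp ((C₁ : ℝ) * l) * Real.exp t) := by
      rw [← Real.exp_neg, ← Real.exp_add, ← Real.exp_add, ← Real.exp_add, ← Real.exp_add]
      congr 1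
      ring
    rw [h1, div_eq_mul_inv]
    have h2 : 8 * (n : ℝ) * (1 + 2 * b * n) ≤ Real.exp (3 * l) := by
      refine le_trans ?_ (Real.add_one_le_exp _)
      linarith
    have h3 : 0 ≤ (Real.exp (((A : ℝ) + C₁ + 3) * l))⁻¹ * (Real.exp ((C₁ : ℝ) * l) * Real.exp t) := by
      positivity
    have h4 := mul_le_mul_of_nonneg_right h2 h3
    nlinarith [h4]
  · refine Real.exp_le_exp.2 ?_
    have h1 : ((A : ℝ) + C₁ + 3) * l ≤ l * l := mul_le_mul_of_nonneg_right q3 (by linarith)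
    nlinarith
  · refine le_trans ?_ (Real.add_one_le_exp _)
    nlinarith
  · refine le_trans ?_ (Real.add_one_le_exp _)
    nlinarith

theorem bgb {ℓ p : ℕ} (hp : PQ ℓ p) {K : IntermediateField ℚ QBar} [NumberField K] (hp2 : MQ ℓ p K)
    {ζ : K} (hζ : IsPrimitiveRoot ζ p) (S : Finset (Pl K)) (hS : ∀ v : Pl K, Above p v → v ∈ S)
    (b C₁ A : ℕ) (hb : 1 ≤ b) : ∃ Y₀ : ℝ, ∀ Y : ℝ, Y₀ ≤ Y → ∀ (m : Finset (Pl K)) (Z : ℝ),
      (m.card : ℝ) ≤ C₁ * Real.log (Real.log Y) → Real.exp (Real.log (Real.log Y) ^ 3) ≤ Z →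
      Z ≤ Y ^ C₁ → ∀ (ι : Type) (I : Finset ι) (z : ι → Pl K) (x : ι → ℝ),
      (∀ i ∈ I, z i ∉ S ∧ z i ∉ m ∧ Z < nm (z i) ∧ (nm (z i) : ℝ) ≤ 2 * Z) →
      (∀ i ∈ I, Real.exp (Real.log (Real.log Y) ^ 3) ≤ x i ∧ x i ≤ Y ^ C₁) →
      (∀ v, ((I.filter fun i => z i = v).card : ℝ) ≤ Real.log Y ^ C₁) →
      ∀ (G : ι → Type) [∀ i, Group (G i)] [∀ i, Fintype (G i)] (φ : ∀ i, Gal(QBar/K) →* G i)
        (H : ∀ i, Subgroup (G i)) (ψ : ∀ i, G i → ZMod p),
      (∀ i ∈ I, Mb p b S (insert (z i) m) (z i) (φ i) (H i) (ψ i)) → ∀ Q : DP K QBar,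
      ∑ i ∈ I, (x i)⁻¹ *
          ‖sg (x i) (S ∪ insert (z i) m) (fun w => mi (φ i) (H i) (ψ i) (fr Q w))‖ ≤
        Z * Real.log Y ^ (-(A : ℝ)) := by
  obtain ⟨C, hC, hga⟩ := bga hp hp2 hζ S hS b hb
  obtain ⟨l₁, hl₁, hn1⟩ := bgb_n1 C hC (C₁ + 1) (A + C₁ + 3) (by omega)
  obtain ⟨l₂, hl₂, hn2⟩ := bgb_n2 b (prK K).n C₁ A
  refine ⟨Real.exp (Real.exp (max l₁ l₂)), ?_⟩
  intro Y hY m Z hm hZ hZ2 ι I z x hz hx hfib G _ _ φ H ψ hMb Q
  have hY0 : 0 < Y := (Real.exp_pos _).trans_le hY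
  have hLY1 : Real.exp (max l₁ l₂) ≤ Real.log Y := (Real.le_log_iff_exp_le hY0).2 hY
  have hLY0 : 0 < Real.log Y := (Real.exp_pos _).trans_le hLY1
  have hlm : max l₁ l₂ ≤ Real.log (Real.log Y) := (Real.le_log_iff_exp_le hLY0).2 hLY1
  obtain ⟨l, hl⟩ : ∃ l : ℝ, l = Real.log (Real.log Y) := ⟨_, rfl⟩
  rw [← hl] at hm hZ hx hlm
  have hLY : Real.log Y = Real.exp l := by rw [hl, Real.exp_log hLY0]
  rw [hLY] at hfib ⊢
  have hl1 : l₁ ≤ l := (le_max_left _ _).trans hlm
  have hl2 : l₂ ≤ l := (le_max_right _ _).trans hlm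
  have hl2' : 2 ≤ l := hl₂.trans hl2
  have hZ0 : 0 < Z := (Real.exp_pos _).trans_le hZ
  obtain ⟨t, ht⟩ : ∃ t : ℝ, t = Real.log Z := ⟨_, rfl⟩
  have hZt : Z = Real.exp t := by rw [ht, Real.exp_log hZ0]
  have ht3 : l ^ 3 ≤ t := by rw [ht]; exact (Real.le_log_iff_exp_le hZ0).2 hZ
  have hY1 : ∀ y : ℝ, 0 < y → y ≤ Y ^ C₁ → Real.log y ≤ C₁ * Real.exp l := by
    intro y hy0 hy
    have h1 := Real.log_le_log hy0 hy
    rwa [Real.log_pow, hLY] at h1
  have htC : t ≤ C₁ * Real.exp l := by rw [ht]; exact hY1 Z hZ0 hZ2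
  obtain ⟨hA1, hA2, hA3, hA4, hA5⟩ := hn2 l t hl2 ht3
  obtain ⟨U, hU⟩ : ∃ U : ℝ, U = Real.exp l ^ (A + C₁ + 3) := ⟨_, rfl⟩
  rw [← hU] at hA1 hA2 hA3 hA4
  have hU0 : 0 < U := by linarith
  obtain ⟨X₀, hX₀⟩ : ∃ X₀ : ℝ, X₀ = Real.exp (l ^ 3) := ⟨_, rfl⟩
  rw [← hX₀] at hA3 hA5 hx hZ
  have hX0 : 0 < X₀ := by linarith
  obtain ⟨r, hr⟩ : ∃ r : ℝ, r = 1 + 1 / U := ⟨_, rfl⟩
  have hU1 : 0 < 1 / U := by positivity
  have hr1 : 1 < r := by rw [hr]; linarith
  have hr0 : 0 < r := by linarith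
  have hb0 : (0 : ℝ) ≤ b := Nat.cast_nonneg _
  obtain ⟨n, hn⟩ : ∃ n : ℝ, n = ((prK K).n : ℝ) := ⟨_, rfl⟩
  have hn0 : 0 ≤ n := by rw [hn]; exact Nat.cast_nonneg _
  rw [← hn] at hA1 hA2
  have hFb : ∀ i ∈ I, ∀ w, ‖mi (φ i) (H i) (ψ i) (fr Q w)‖ ≤ (b : ℝ) := by
    intro i hi w
    refine (mi_bd _ _ _ _).trans ?_
    exact_mod_cast (hMb i hi).card
  -- the grid
  have hk : ∀ i : ι, ∃ k : ℕ, i ∈ I → r ^ k ≤ x i / X₀ ∧ x i / X₀ < r ^ (k + 1) := by
    intro i
    by_cases hi : i ∈ I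
    · have h1 : 1 ≤ x i / X₀ := by
        rw [one_le_div hX0]
        exact (hx i hi).1
      obtain ⟨k, hk1, hk2⟩ := exists_nat_pow_near h1 hr1
      exact ⟨k, fun _ => ⟨hk1, hk2⟩⟩
    · exact ⟨0, fun h => absurd h hi⟩
  choose κ hκ using hk
  obtain ⟨y, hy⟩ : ∃ y : ℕ → ℝ, ∀ k, y k = X₀ * r ^ k := ⟨_, fun _ => rfl⟩
  have hyX : ∀ k, X₀ ≤ y k := by
    intro k
    rw [hy]
    have h1 : 1 ≤ r ^ k := one_le_pow₀ hr1.le
    nlinarith
  have hyx : ∀ i ∈ I, y (κ i) ≤ x i ∧ x i - y (κ i) ≤ y (κ i) / U := by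
    intro i hi
    obtain ⟨h1, h2⟩ := hκ i hi
    rw [le_div_iff₀ hX0] at h1
    rw [div_lt_iff₀ hX0] at h2
    rw [hy]
    constructor
    · linarith
    · have e : X₀ * r ^ (κ i) / U = r ^ (κ i + 1) * X₀ - X₀ * r ^ (κ i) := by
        rw [pow_succ]
        nth_rewrite 3 [hr]
        field_simp
        ring
      rw [e]
      linarith
  obtain ⟨k₀, hk₀⟩ : ∃ k₀ : ℕ, k₀ = ⌈2 * U * C₁ * Real.exp l⌉₊ := ⟨_, rfl⟩
  have hk₀1 : (k₀ : ℝ) + 1 ≤ 2 * U * C₁ * Real.exp l + 2 := by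
    have h1 : (k₀ : ℝ) < 2 * U * C₁ * Real.exp l + 1 := by
      rw [hk₀]
      exact Nat.ceil_lt_add_one (by positivity)
    linarith
  have hx0 : ∀ i ∈ I, 0 < x i := fun i hi => hX0.trans_le (hx i hi).1
  have hκk : ∀ i ∈ I, κ i ≤ k₀ := by
    intro i hi
    have h1 : (κ i : ℝ) * Real.log r ≤ C₁ * Real.exp l := by
      have h2 : r ^ κ i ≤ x i := by
        refine (hκ i hi).1.trans ?_
        rw [div_le_iff₀ hX0]
        have := hx0 i hi
        nlinarith
      have h3 := Real.log_le_log (by positivity) h2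
      rw [Real.log_pow] at h3
      exact h3.trans (hY1 _ (hx0 i hi) (hx i hi).2)
    have h4 : 1 / (2 * U) ≤ Real.log r := by
      refine le_trans ?_ (Real.one_sub_inv_le_log_of_pos hr0)
      have e : 1 - r⁻¹ = 1 / (U + 1) := by
        rw [hr]
        field_simp
        ring
      rw [e]
      exact one_div_le_one_div_of_le (by linarith) (by linarith)
    have h5 : (κ i : ℝ) * (1 / (2 * U)) ≤ C₁ * Real.exp l :=
      (mul_le_mul_of_nonneg_left h4 (Nat.cast_nonneg _)).trans h1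
    have h6 : (κ i : ℝ) ≤ 2 * U * C₁ * Real.exp l := by
      rw [mul_one_div, div_le_iff₀ (by positivity)] at h5
      linarith
    rw [hk₀]
    exact_mod_cast h6.trans (Nat.le_ceil _)
  obtain ⟨N, hN⟩ : ∃ N : ι → ℝ → ℝ, ∀ i y', N i y' =
      ‖sg y' (S ∪ insert (z i) m) (fun w => mi (φ i) (H i) (ψ i) (fr Q w))‖ := ⟨_, fun _ _ => rfl⟩
  have hgoal : ∑ i ∈ I, (x i)⁻¹ * N i (x i) ≤ Z * Real.exp l ^ (-(A : ℝ)) := by
    rw [← Finset.sum_filter_add_sum_filter_not I (fun i => y (κ i) / U ≤ N i (y (κ i)))]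
    have hbad : ∑ i ∈ I.filter (fun i => y (κ i) / U ≤ N i (y (κ i))), (x i)⁻¹ * N i (x i) ≤
        1 / 2 * (Real.exp t * Real.exp l ^ (-(A : ℝ))) := by
      refine le_trans ?_ hA1
      have hterm : ∀ i ∈ I.filter (fun i => y (κ i) / U ≤ N i (y (κ i))),
          (x i)⁻¹ * N i (x i) ≤ 2 * b * n := by
        intro i hi
        rw [Finset.mem_filter] at hi
        have h1 := bgb_triv (b : ℝ) hb0 (x i) (by linarith [(hx i hi.1).1]) (S ∪ insert (z i) m)
          (fun w => mi (φ i) (H i) (ψ i) (fr Q w)) (hFb i hi.1)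
        rw [← hN, ← hn] at h1
        rw [inv_mul_le_iff₀ (hx0 i hi.1)]
        linarith
      refine (Finset.sum_le_sum hterm).trans ?_
      rw [Finset.sum_const, nsmul_eq_mul]
      have e1 : (2 * U * C₁ * Real.exp l + 2) * (Real.exp (t / 8) * Real.exp l ^ C₁ * (2 * b * n)) =
          ((2 * U * C₁ * Real.exp l + 2) * (Real.exp (t / 8) * Real.exp l ^ C₁)) * (2 * b * n) := by
        ring
      rw [e1]
      refine mul_le_mul_of_nonneg_right ?_ (by positivity)
      have hcard : ((I.filter (fun i => y (κ i) / U ≤ N i (y (κ i)))).card : ℝ) ≤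
          ∑ k ∈ Finset.range (k₀ + 1), Real.exp (t / 8) * Real.exp l ^ C₁ := by
        have h1 : ((I.filter (fun i => y (κ i) / U ≤ N i (y (κ i)))).card : ℝ) =
            ∑ k ∈ Finset.range (k₀ + 1), (((I.filter (fun i => y (κ i) / U ≤ N i (y (κ i)))).filter
              (fun i => κ i = k)).card : ℝ) := by
          rw [Finset.card_eq_sum_card_fiberwise (f := κ) (t := Finset.range (k₀ + 1))]
          · push_cast
            rfl
          · intro i hi
            rw [Finset.mem_coe, Finset.mem_filter] at hi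
            rw [Finset.coe_range, Set.mem_Iio]
            have := hκk i hi.1
            omega
        rw [h1]
        refine Finset.sum_le_sum fun k _ => ?_
        obtain ⟨Bk, hBk⟩ : ∃ Bk : Finset ι, Bk = (I.filter (fun i => y (κ i) / U ≤ N i (y (κ i)))).filter
            (fun i => κ i = k) := ⟨_, rfl⟩
        rw [← hBk]
        have hBI : ∀ i ∈ Bk, i ∈ I ∧ y k / U ≤ N i (y k) ∧ κ i = k := by
          intro i hi
          rw [hBk, Finset.mem_filter, Finset.mem_filter] at hi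
          obtain ⟨⟨h2, h3⟩, h4⟩ := hi
          rw [h4] at h3
          exact ⟨h2, h3, h4⟩
        have h2 : (Bk.card : ℝ) ≤ ((Bk.image z).card : ℝ) * Real.exp l ^ C₁ := by
          have h3 : Bk.card = ∑ v ∈ Bk.image z, (Bk.filter fun i => z i = v).card :=
            Finset.card_eq_sum_card_fiberwise fun i hi => Finset.mem_coe.2 (Finset.mem_image_of_mem z hi)
          rw [h3]
          push_cast
          rw [← nsmul_eq_mul, ← Finset.sum_const]
          refine Finset.sum_le_sum fun v _ => ?_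
          refine le_trans ?_ (hfib v)
          have h4 : (Bk.filter fun i => z i = v) ⊆ I.filter fun i => z i = v :=
            Finset.filter_subset_filter _ fun i hi => (hBI i hi).1
          exact_mod_cast Finset.card_le_card h4
        refine h2.trans (mul_le_mul_of_nonneg_right ?_ (by positivity))
        -- `bga`
        rcases Bk.eq_empty_or_nonempty with he | ⟨i₀, hi₀⟩
        · rw [he, Finset.image_empty, Finset.card_empty, Nat.cast_zero]
          exact (Real.exp_pos _).le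
        · have hiv : ∀ v : {v // v ∈ Bk.image z}, ∃ i ∈ Bk, z i = v := fun v =>
            Finset.mem_image.1 v.2
          choose iv hiv1 hiv2 using hiv
          have hyk0 : 0 < y k := hX0.trans_le (hyX k)
          have hys : y k ≤ Y ^ C₁ := by
            have h5 := (hBI i₀ hi₀)
            have h6 := (hyx i₀ h5.1).1
            rw [h5.2.2] at h6
            exact h6.trans (hx i₀ h5.1).2
          have hs3 : l ^ 3 ≤ Real.log (y k) := by
            rw [Real.le_log_iff_exp_le hyk0, ← hX₀]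
            exact hyX k
          have hsC : Real.log (y k) ≤ C₁ * Real.exp l := hY1 _ hyk0 hys
          have hel : 0 < Real.exp l := Real.exp_pos l
          obtain ⟨hc1, hc2⟩ := hn1 l t (m.card : ℝ) (Real.log (y k)) hl1 ht3
            (by push_cast; nlinarith) (Nat.cast_nonneg _) (by push_cast; nlinarith) hs3
            (by push_cast; nlinarith)
          have hlog2Z : Real.log (2 * Z) = Real.log 2 + t := by
            rw [Real.log_mul (by norm_num) hZ0.ne', ← ht]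
          have hL0 : 0 < ((m.card : ℝ) + 2) * (Real.log 2 + t) := by
            have h5 : 0 < Real.log 2 := Real.log_pos (by norm_num)
            have h6 : 0 < l ^ 3 := by positivity
            have h7 : (0 : ℝ) ≤ m.card := Nat.cast_nonneg _
            exact mul_pos (by linarith) (by linarith)
          have hlU : Real.log U = ((A + C₁ + 3 : ℕ) : ℝ) * l := by
            rw [hU, Real.log_pow, Real.log_exp]
          have h5 := hga U Z (y k) (((m.card : ℝ) + 2) * Real.log (2 * Z)) m hA4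
            (hA5.trans hZ) (hA5.trans (hyX k)) rfl
            (by
              rw [hlog2Z, ← Real.log_le_log_iff (Real.rpow_pos_of_pos (mul_pos hU0 hL0) _) hyk0,
                Real.log_rpow (mul_pos hU0 hL0), Real.log_mul hU0.ne' hL0.ne', hlU]
              exact hc1)
            {v // v ∈ Bk.image z} (fun v => (v : Pl K)) Subtype.val_injective
            (fun v => by
              have h6 := hBI _ (hiv1 v)
              have h7 := hz _ h6.1
              rw [hiv2 v] at h7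
              exact ⟨h7.1, h7.2.1, h7.2.2.2⟩)
            (fun v => G (iv v)) (fun v => φ (iv v)) (fun v => H (iv v)) (fun v => ψ (iv v))
            (fun v => by
              have h6 := hMb _ (hBI _ (hiv1 v)).1
              rw [hiv2 v] at h6
              exact h6) Q
            (fun v => by
              have h6 := (hBI _ (hiv1 v)).2.1
              rw [hN, hiv2 v] at h6
              exact h6)
          rw [Fintype.card_coe] at h5
          refine h5.trans (Real.exp_le_exp.2 ?_)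
          rw [hlog2Z, hlU]
          exact hc2
      refine hcard.trans ?_
      rw [Finset.sum_const, Finset.card_range, nsmul_eq_mul]
      push_cast
      exact mul_le_mul_of_nonneg_right hk₀1 (by positivity)
    have hgood : ∑ i ∈ I.filter (fun i => ¬ y (κ i) / U ≤ N i (y (κ i))), (x i)⁻¹ * N i (x i) ≤
        1 / 2 * (Real.exp t * Real.exp l ^ (-(A : ℝ))) := by
      refine le_trans ?_ hA2
      have hterm : ∀ i ∈ I.filter (fun i => ¬ y (κ i) / U ≤ N i (y (κ i))),
          (x i)⁻¹ * N i (x i) ≤ (1 + 2 * b * n) / U := by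
        intro i hi
        rw [Finset.mem_filter, not_le] at hi
        obtain ⟨hi, h1⟩ := hi
        have h2 := hyx i hi
        have hyk0 : 0 < y (κ i) := hX0.trans_le (hyX _)
        have h3 := bgb_short (b : ℝ) hb0 (y (κ i)) (x i) hyk0.le h2.1 (S ∪ insert (z i) m)
          (fun w => mi (φ i) (H i) (ψ i) (fr Q w)) (hFb i hi)
        rw [← hN, ← hN, ← hn] at h3
        rw [inv_mul_le_iff₀ (hx0 i hi)]
        have h4 : y (κ i) / U ≤ x i / U := div_le_div_of_nonneg_right h2.1 hU0.le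
        have h5 : 1 ≤ x i / U := by
          rw [one_le_div hU0]
          exact hA3.trans (hx i hi).1
        have h6 : b * (n * (x i - y (κ i) + 1)) ≤ b * (n * (x i / U + x i / U)) :=
          mul_le_mul_of_nonneg_left (mul_le_mul_of_nonneg_left (by linarith) hn0) hb0
        have e : x i * ((1 + 2 * b * n) / U) = x i / U + b * (n * (x i / U + x i / U)) := by ring
        rw [e]
        linarith
      refine (Finset.sum_le_sum hterm).trans ?_
      rw [Finset.sum_const, nsmul_eq_mul, mul_comm]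
      refine mul_le_mul_of_nonneg_left ?_ (by positivity)
      have h1 : ((I.filter (fun i => ¬ y (κ i) / U ≤ N i (y (κ i)))).card : ℝ) ≤ (I.card : ℝ) := by
        exact_mod_cast Finset.card_filter_le _ _
      refine h1.trans ?_
      have h2 : (I.card : ℝ) ≤ ((I.image z).card : ℝ) * Real.exp l ^ C₁ := by
        have h3 : I.card = ∑ v ∈ I.image z, (I.filter fun i => z i = v).card :=
          Finset.card_eq_sum_card_fiberwise fun i hi => Finset.mem_coe.2 (Finset.mem_image_of_mem z hi)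
        rw [h3]
        push_cast
        rw [← nsmul_eq_mul, ← Finset.sum_const]
        exact Finset.sum_le_sum fun v _ => hfib v
      refine h2.trans ?_
      rw [mul_comm]
      refine mul_le_mul_of_nonneg_left ?_ (by positivity)
      have h3 := exc_card (prK K) (2 * Z) (by linarith)
      rw [← hn] at h3
      have h4 : I.image z ⊆ (prK K).P (2 * Z) := by
        intro v hv
        obtain ⟨i, hi, rfl⟩ := Finset.mem_image.1 hv
        rw [Pr.mem_P, prK_N]
        exact (hz i hi).2.2.2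
      rw [← hZt]
      exact le_trans (by exact_mod_cast Finset.card_le_card h4) h3
    rw [hZt]
    linarith
  refine le_trans (le_of_eq ?_) hgoal
  exact Finset.sum_congr rfl fun i _ => by rw [hN]

end H57.GP.Q.E
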