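import Pool.Agent.H93.GQ.Chv
import Pool.Agent.H57.RN.Rck
import Pool.Agent.H57.RN.Rec

/-!
# H57 G2 DEF: the chapter GP for all primes (also `2`)

`MQ ℓ p K`: `-1` is an `ℓ`-th power and a `p`-th power in `K` (`p` a power of `ℓ`).
-/

set_option autoImplicit false

open scoped NumberField Pointwise Classical
open IsDedekindDomain H63.MA NumberField

noncomputable section

namespace H57.GP.Q.E

/-- `-1` is an `ℓ`-th power and a `p`-th power -/
structure MQ (ℓ p : ℕ) (K : Type) [Field K] : Prop where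
  one : MOne ℓ K
  pow : MOne p K

theorem MQ.up {ℓ p : ℕ} {K : Type} [Field K] (h : MQ ℓ p K) (L : Type) [Field L] [Algebra K L] :
    MQ ℓ p L := by
  obtain ⟨⟨i, hi⟩, ⟨j, hj⟩⟩ := h
  refine ⟨⟨algebraMap K L i, ?_⟩, ⟨algebraMap K L j, ?_⟩⟩
  · rw [← map_pow, hi, map_neg, map_one]
  · rw [← map_pow, hj, map_neg, map_one]

theorem MQ.mm {ℓ k : ℕ} {K : Type} [Field K] (h : MQ ℓ (ℓ ^ k) K) : H57.RQ.N.MM ℓ k K :=
  ⟨h.one, h.pow⟩

theorem MQ.odd {ℓ : ℕ} (hℓ : ℓ.Prime) (hℓ2 : ℓ ≠ 2) {p : ℕ} (hp : PQ ℓ p) (K : Type) [Field K] :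
    MQ ℓ p K := by
  obtain ⟨-, k, rfl⟩ := hp
  have h1 : Odd ℓ := hℓ.odd_of_ne_two hℓ2
  exact ⟨⟨-1, h1.neg_one_pow⟩, ⟨-1, (h1.pow).neg_one_pow⟩⟩

/-- no real places -/
theorem MQ.tc {ℓ p : ℕ} (hp : PQ ℓ p) {K : Type} [Field K] [NumberField K] (h : MQ ℓ p K) {z : K}
    (hz : IsPrimitiveRoot z p) : NumberField.IsTotallyComplex K := by
  by_cases h2 : 2 < p
  · exact NumberField.nrRealPlaces_eq_zero_iff.mp
      (NumberField.InfinitePlace.IsPrimitiveRoot.nrRealPlaces_eq_zero_of_two_lt h2 hz)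
  have hp2 : p = 2 := le_antisymm (not_lt.1 h2) hp.two_le
  obtain ⟨i, hi⟩ := h.pow
  rw [hp2] at hi
  have h4 : IsPrimitiveRoot i 4 := by
    have e : (4 : ℕ) = 2 ^ (1 + 1) := by norm_num
    have : Fact (Nat.Prime 2) := ⟨Nat.prime_two⟩
    have h5 : ¬ i ^ 2 ^ 1 = 1 := by
      rw [pow_one, hi]
      intro h6
      have h7 : (2 : K) = 0 := by
        linear_combination -h6
      exact two_ne_zero h7
    have h6 : i ^ 2 ^ (1 + 1) = 1 := by
      have : i ^ 2 ^ (1 + 1) = (i ^ 2) ^ 2 := by ring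
      rw [this, hi]
      ring
    rw [e, ← orderOf_eq_prime_pow h5 h6]
    exact IsPrimitiveRoot.orderOf _
  exact NumberField.nrRealPlaces_eq_zero_iff.mp
    (NumberField.InfinitePlace.IsPrimitiveRoot.nrRealPlaces_eq_zero_of_two_lt (by norm_num) h4)

end H57.GP.Q.E
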