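import Pool.Agent.H57.GP.Gpr
import Pool.Agent.H57.GP.Sms

/-!
# H57 G2 SMX: the interface of the small part of GP for all primes

`SmX K ℓ p b`: prime sums of induced characters `th H ψ` of `ℓ`-groups with conductor of norm `≤ Z`, outside one
exceptional set `e` of primes of norm `≥ (log Z) ^ D` (the tame primes of the exceptional quadratic character of `K`).
-/

set_option autoImplicit false

open scoped NumberField Pointwise Classical
open IsDedekindDomain H63.MA NumberField H36.QA H57.LI H57.LC H67.SX H38.ML H57.SL H57.AN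

noncomputable section

namespace H57.GP.Q.E

/-- prime sums with small conductor, outside one exceptional set -/
def SmX (K : IntermediateField ℚ QBar) [NumberField K] (ℓ p b : ℕ) : Prop :=
  ∃ c : ℝ, 0 < c ∧ ∀ A D : ℕ, ∃ C Z₀ : ℝ, 1 ≤ C ∧ 3 ≤ Z₀ ∧ ∀ Z : ℝ, Z₀ ≤ Z →
    ∃ e : Finset (Pl K), Real.log Z ^ D ≤ nr e ∧
    ∀ (G : Type) [Group G] [Fintype G] (φ : Gal(QBar/K) →* G) (H : Subgroup G) (ψ : G → ZMod p)
      (B Bd : Finset (Pl K)) (Q : DP K QBar), Fintype.card G ≤ b → IsPGroup ℓ G →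
      Function.Surjective φ → Ft φ → Lc H ψ → (∀ l, ¬ Above p l → l ∉ B → Ud φ H ψ l) →
      Np φ H ψ → B ⊆ Bd → nr B ≤ Z → ¬ e ⊆ B → ∀ x : ℝ, 1 ≤ x →
      1 + Real.log Z ≤ Real.log x ^ c →
      ‖sg x Bd (fun w => mi φ H ψ (fr Q w))‖ ≤
        C * (x * Real.log x ^ (-(A : ℝ))) + C * Bd.card

end H57.GP.Q.E
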